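import Pool.Agent.J4H7.AF.Stm

set_option autoImplicit false

/-!
# Project AF, piece (SUP): the generating function outside of a short interval around zero (helper87)
-/

namespace Pool.Agent.J4H87.AF.Sup

open Finset MeasureTheory Filter Topology
open Pool.Agent.J4H7.WE (KK KK_small KK_le ee_norm')
open Pool.Agent.J4H7.WS (Fn ESall fr fsR)
open Pool.Agent.Helper153.Vdc (ee)
open Pool.Agent.J4H7.AF

lemma SF_le (f : ℝ → ℝ) (M : ℕ) (β : ℝ) : ‖SF f M β‖ ≤ M := by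
  unfold SF
  refine (norm_sum_le _ _).trans ?_
  simp_rw [ee_norm']
  simp

/-- splitting off the last block -/
lemma SF_split (f : ℝ → ℝ) {m M : ℕ} (h : m ≤ M) (β : ℝ) :
    SF f M β = SF f m β + ∑ n ∈ range (M - m), ee (β * (⌊f (((m + 1 : ℕ) : ℝ) + n)⌋₊ : ℝ)) := by
  unfold SF
  have h1 : ∀ N : ℕ, Finset.Icc 1 N = Finset.Ico 1 (N + 1) := by
    intro N
    ext x
    simp only [Finset.mem_Icc, Finset.mem_Ico]
    omega
  rw [h1, h1, ← Finset.sum_Ico_consecutive _ (show 1 ≤ m + 1 by omega) (show m + 1 ≤ M + 1 by omega)]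
  congr 1
  rw [Finset.sum_Ico_eq_sum_range]
  have h2 : M + 1 - (m + 1) = M - m := by omega
  rw [h2]
  refine Finset.sum_congr rfl fun n _ => ?_
  unfold fr
  push_cast
  rfl

/-- dyadic blocks: a bound for the whole sum from the bound of the blocks -/
lemma dyadic (f : ℝ → ℝ) (β : ℝ) (M : ℕ) (T B : ℝ) (hT : 1 ≤ T) (hB : 0 ≤ B)
    (hblk : ∀ L : ℕ, T < L → L ≤ M → ‖∑ n ∈ range (L - L / 2), ee (β * (⌊f (((L / 2 + 1 : ℕ) : ℝ) + n)⌋₊ : ℝ))‖ ≤ B) :
    ∀ L : ℕ, L ≤ M → ‖SF f L β‖ ≤ T + (Nat.log 2 L + 1) * B := by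
  intro L
  induction L using Nat.strong_induction_on with
  | _ L ih =>
    intro hL
    rcases le_or_gt (L : ℝ) T with h | h
    · have := SF_le f L β
      have h0 : (0 : ℝ) ≤ ((Nat.log 2 L : ℕ) : ℝ) := by positivity
      nlinarith
    · have hL2 : 2 ≤ L := by
        have : (1 : ℝ) < L := lt_of_le_of_lt hT h
        exact_mod_cast this
      have h1 := ih (L / 2) (by omega) (by omega)
      have h2 := hblk L h hL
      rw [SF_split f (show L / 2 ≤ L by omega) β]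
      refine (norm_add_le _ _).trans ?_
      have h3 : Nat.log 2 L = Nat.log 2 (L / 2) + 1 := Nat.log_of_one_lt_of_le (by norm_num) hL2
      have h4 : ((Nat.log 2 L : ℕ) : ℝ) = ((Nat.log 2 (L / 2) : ℕ) : ℝ) + 1 := by
        rw [h3]
        push_cast
        rfl
      rw [h4]
      linarith

lemma log_bd {M : ℕ} (hM : 1 ≤ M) {σ : ℝ} (hσ : 0 < σ) :
    ((Nat.log 2 M : ℝ) + 1) ≤ (4 / σ + 1) * (M : ℝ) ^ (σ / 2) := by
  have hM1 : (1 : ℝ) ≤ M := by exact_mod_cast hM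
  have h1 : ((Nat.log 2 M : ℕ) : ℝ) ≤ Real.logb 2 M := by
    have := Real.natLog_le_logb M 2
    exact_mod_cast this
  have h2 : Real.logb 2 M ≤ 2 * Real.log M := by
    rw [Real.logb, div_le_iff₀ (Real.log_pos (by norm_num))]
    have := Real.log_two_gt_d9
    have h0 := Real.log_nonneg hM1
    nlinarith
  have h3 : Real.log M ≤ (M : ℝ) ^ (σ / 2) / (σ / 2) := Real.log_le_rpow_div (by positivity) (by positivity)
  have h4 : (1 : ℝ) ≤ (M : ℝ) ^ (σ / 2) := Real.one_le_rpow hM1 (by positivity)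
  have h5 : (M : ℝ) ^ (σ / 2) / (σ / 2) = 2 / σ * (M : ℝ) ^ (σ / 2) := by
    field_simp
  rw [h5] at h3
  have h6 : 4 / σ = 2 * (2 / σ) := by ring
  rw [h6]
  nlinarith

theorem t_SUP : S_BLK → S_SUP := by
  intro hBLK k hk f hf hE
  obtain ⟨σ, hσ, hσ1, C, hC, X0, hX0, hb⟩ := hBLK k hk f hf hE (1 / 32) (by norm_num) (by norm_num)
  have hk0 : (0 : ℝ) < k := by positivity
  have hk2 : (2 : ℝ) ≤ k := by exact_mod_cast hk
  set δ : ℝ := 1 / (16 * k) with hδ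
  have hδ0 : 0 < δ := by positivity
  have hδ1 : δ ≤ 1 / 32 := by
    rw [hδ]
    apply one_div_le_one_div_of_le (by norm_num)
    linarith
  set τ : ℝ := min δ (σ / 2) with hτ
  have hτ0 : 0 < τ := lt_min hδ0 (by positivity)
  have hτδ : τ ≤ δ := min_le_left _ _
  have hτσ : τ ≤ σ / 2 := min_le_right _ _
  have hp := Real.pi_pos
  refine ⟨1 / 4, by norm_num, le_rfl, τ, hτ0, 4 * Real.pi + 2 * (16 * X0 + 16 + (4 / σ + 1) * C), ?_, ?_⟩
  · have : 0 < 4 / σ := by positivity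
    nlinarith [mul_pos (show 0 < 4 / σ + 1 by positivity) (show 0 < C by linarith)]
  intro M hM β hβ
  have hM1 : (1 : ℝ) ≤ M := by exact_mod_cast hM
  have hM0 : (0 : ℝ) < M := by linarith
  have hMτ : (1 : ℝ) ≤ (M : ℝ) ^ (1 - τ) := Real.one_le_rpow hM1 (by linarith)
  have hbig : (0 : ℝ) ≤ 2 * (16 * X0 + 16 + (4 / σ + 1) * C) := by positivity
  set W : ℕ := ⌈(M : ℝ) ^ ((k : ℝ) - 1 / 4)⌉₊ with hW
  have hMk : (1 : ℝ) ≤ (M : ℝ) ^ ((k : ℝ) - 1 / 4) := Real.one_le_rpow hM1 (by linarith)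
  have hW1 : 1 ≤ W := by
    rw [hW]
    exact Nat.one_le_iff_ne_zero.2 (by
      intro h0
      rw [Nat.ceil_eq_zero] at h0
      linarith)
  rcases le_or_gt |β| ((M : ℝ) ^ (-(k : ℝ) + 1 / 8)) with hs | hl
  · -- very close to zero
    have h1 := KK_small hW1 β
    have h2 : (W : ℝ) ≤ 2 * (M : ℝ) ^ ((k : ℝ) - 1 / 4) := by
      have := (Nat.ceil_lt_add_one (show (0 : ℝ) ≤ (M : ℝ) ^ ((k : ℝ) - 1 / 4) by positivity)).le
      rw [← hW] at this
      linarith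
    have h3 : ‖1 - KK W β‖ ≤ 4 * Real.pi * (M : ℝ) ^ (-(1 / 8) : ℝ) := by
      refine h1.trans ?_
      calc 2 * Real.pi * W * |β| ≤ 2 * Real.pi * (2 * (M : ℝ) ^ ((k : ℝ) - 1 / 4)) * (M : ℝ) ^ (-(k : ℝ) + 1 / 8) := by
            gcongr
        _ = 4 * Real.pi * ((M : ℝ) ^ ((k : ℝ) - 1 / 4) * (M : ℝ) ^ (-(k : ℝ) + 1 / 8)) := by ring
        _ = 4 * Real.pi * (M : ℝ) ^ (-(1 / 8) : ℝ) := by
            rw [← Real.rpow_add hM0]
            congr 2
            ring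
    calc ‖SF f M β‖ * ‖1 - KK W β‖ ≤ M * (4 * Real.pi * (M : ℝ) ^ (-(1 / 8) : ℝ)) :=
          mul_le_mul (SF_le f M β) h3 (norm_nonneg _) hM0.le
      _ = 4 * Real.pi * ((M : ℝ) ^ (1 : ℝ) * (M : ℝ) ^ (-(1 / 8) : ℝ)) := by
          rw [Real.rpow_one]
          ring
      _ = 4 * Real.pi * (M : ℝ) ^ (1 - 1 / 8 : ℝ) := by
          rw [← Real.rpow_add hM0]
          congr 2
      _ ≤ 4 * Real.pi * (M : ℝ) ^ (1 - τ) := by
          apply mul_le_mul_of_nonneg_left _ (by positivity)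
          apply Real.rpow_le_rpow_of_exponent_le hM1
          linarith
      _ ≤ (4 * Real.pi + 2 * (16 * X0 + 16 + (4 / σ + 1) * C)) * (M : ℝ) ^ (1 - τ) := by
          apply mul_le_mul_of_nonneg_right _ (by positivity)
          linarith
  · -- the dyadic blocks
    have h1 := KK_le hW1 β
    set T : ℝ := 16 * X0 + 16 * (M : ℝ) ^ (1 - δ) with hT
    have hT1 : 1 ≤ T := by
      have : (0 : ℝ) ≤ (M : ℝ) ^ (1 - δ) := by positivity
      nlinarith
    have hblk : ∀ L : ℕ, T < L → L ≤ M →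
        ‖∑ n ∈ range (L - L / 2), ee (β * (⌊f (((L / 2 + 1 : ℕ) : ℝ) + n)⌋₊ : ℝ))‖ ≤ C * (M : ℝ) ^ (1 - σ) := by
      intro L hTL hLM
      have hLM' : (L : ℝ) ≤ M := by exact_mod_cast hLM
      have hMδ : (0 : ℝ) < (M : ℝ) ^ (1 - δ) := by positivity
      have hX : X0 ≤ (L : ℝ) / 16 := by linarith
      have hXM : (M : ℝ) ^ (1 - δ) ≤ (L : ℝ) / 16 := by linarith
      have hXpos : (0 : ℝ) < (L : ℝ) / 16 := by linarith
      have hXM' : (L : ℝ) / 16 ≤ M := by linarith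
      have hc1 : ((L : ℝ) / 16) ^ (2 * (1 / 32) : ℝ) ≤ |β| * ((L : ℝ) / 16) ^ (k : ℝ) := by
        calc ((L : ℝ) / 16) ^ (2 * (1 / 32) : ℝ) ≤ (M : ℝ) ^ (2 * (1 / 32) : ℝ) :=
              Real.rpow_le_rpow hXpos.le hXM' (by norm_num)
          _ = (M : ℝ) ^ (-(k : ℝ) + 1 / 8) * ((M : ℝ) ^ (1 - δ)) ^ (k : ℝ) := by
              rw [← Real.rpow_mul hM0.le, ← Real.rpow_add hM0]
              congr 1
              rw [hδ]
              field_simp
              ring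
          _ ≤ |β| * ((L : ℝ) / 16) ^ (k : ℝ) := by
              apply mul_le_mul hl.le _ (by positivity) (abs_nonneg _)
              exact Real.rpow_le_rpow hMδ.le hXM hk0.le
      have hL2 : (L : ℝ) ≤ 2 * ((L / 2 : ℕ) : ℝ) + 1 := by
        have : L ≤ 2 * (L / 2) + 1 := by omega
        exact_mod_cast this
      have hc2 : 4 * ((L : ℝ) / 16) ≤ ((L / 2 + 1 : ℕ) : ℝ) := by
        push_cast
        linarith
      have hc3 : ((L / 2 + 1 : ℕ) : ℝ) + ((L - L / 2 : ℕ) : ℝ) ≤ 64 * ((L : ℝ) / 16) + 1 := by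
        have : (L / 2 + 1) + (L - L / 2) = L + 1 := by omega
        have h5 : ((L / 2 + 1 : ℕ) : ℝ) + ((L - L / 2 : ℕ) : ℝ) = L + 1 := by exact_mod_cast this
        rw [h5]
        linarith
      have h6 := hb ((L : ℝ) / 16) hX β hβ hc1 (L / 2 + 1) (L - L / 2) hc2 hc3
      refine h6.trans ?_
      apply mul_le_mul_of_nonneg_left _ (by linarith)
      exact Real.rpow_le_rpow hXpos.le hXM' (by linarith)
    have h2 := dyadic f β M T (C * (M : ℝ) ^ (1 - σ)) hT1 (by positivity) hblk M le_rfl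
    have h3 := log_bd hM hσ
    have h4 : ‖SF f M β‖ ≤ (16 * X0 + 16 + (4 / σ + 1) * C) * (M : ℝ) ^ (1 - τ) := by
      have g1 : (M : ℝ) ^ (1 - δ) ≤ (M : ℝ) ^ (1 - τ) := by
        apply Real.rpow_le_rpow_of_exponent_le hM1
        linarith
      have g2 : ((Nat.log 2 M : ℝ) + 1) * (C * (M : ℝ) ^ (1 - σ)) ≤ (4 / σ + 1) * C * (M : ℝ) ^ (1 - τ) := by
        calc ((Nat.log 2 M : ℝ) + 1) * (C * (M : ℝ) ^ (1 - σ))
            ≤ ((4 / σ + 1) * (M : ℝ) ^ (σ / 2)) * (C * (M : ℝ) ^ (1 - σ)) := by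
              apply mul_le_mul_of_nonneg_right h3 (by positivity)
          _ = (4 / σ + 1) * C * ((M : ℝ) ^ (σ / 2) * (M : ℝ) ^ (1 - σ)) := by ring
          _ = (4 / σ + 1) * C * (M : ℝ) ^ (1 - σ / 2) := by
              rw [← Real.rpow_add hM0]
              congr 2
              ring
          _ ≤ (4 / σ + 1) * C * (M : ℝ) ^ (1 - τ) := by
              apply mul_le_mul_of_nonneg_left _ (by positivity)
              apply Real.rpow_le_rpow_of_exponent_le hM1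
              linarith
      have g3 : 16 * X0 ≤ 16 * X0 * (M : ℝ) ^ (1 - τ) := by
        have : (0 : ℝ) ≤ 16 * X0 := by linarith
        nlinarith
      rw [hT] at h2
      nlinarith
    calc ‖SF f M β‖ * ‖1 - KK W β‖ ≤ ((16 * X0 + 16 + (4 / σ + 1) * C) * (M : ℝ) ^ (1 - τ)) * 2 :=
          mul_le_mul h4 h1 (norm_nonneg _) (by positivity)
      _ ≤ (4 * Real.pi + 2 * (16 * X0 + 16 + (4 / σ + 1) * C)) * (M : ℝ) ^ (1 - τ) := by
          have : 0 ≤ 4 * Real.pi * (M : ℝ) ^ (1 - τ) := by positivity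
          nlinarith

end Pool.Agent.J4H87.AF.Sup
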