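import Pool.Agent.J4H7.AF.Stm

set_option autoImplicit false

/-!
# Project AF, piece (WIN): the number of representations is its window average up to a power saving (helper87)
-/

namespace Pool.Agent.J4H87.AF

open Finset MeasureTheory Filter Topology
open Pool.Agent.J4H7.WE (JJ FFs KK GGs RR RR_eq RR_avg ee_add ee_zero ee_norm')
open Pool.Agent.J4H7.WS (fr fsR)
open Pool.Agent.Helper153.Vdc (ee)
open Pool.Agent.J4H7.AF

lemma ee_sum {ι : Type*} (S : Finset ι) (g : ι → ℝ) : ee (∑ i ∈ S, g i) = ∏ i ∈ S, ee (g i) := by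
  classical
  induction S using Finset.induction_on with
  | empty => simp [ee_zero]
  | insert a S ha ih => rw [Finset.sum_insert ha, Finset.prod_insert ha, ee_add, ih]

/-- the generating function of all tuples is a power -/
lemma FFs_CB (f : ℝ → ℝ) (s M : ℕ) (β : ℝ) : FFs (CB s (Finset.Icc 1 M)) (fsR f) β = SF f M β ^ s := by
  classical
  unfold FFs SF CB
  have h1 : (∑ n ∈ Finset.Icc 1 M, ee (β * (fr f n : ℝ))) ^ s =
      ∏ _i : Fin s, ∑ n ∈ Finset.Icc 1 M, ee (β * (fr f n : ℝ)) := by simp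
  rw [h1, Finset.prod_univ_sum]
  refine Finset.sum_congr rfl fun x _ => ?_
  rw [← ee_sum]
  congr 1
  unfold fsR
  push_cast
  rw [Finset.mul_sum]

lemma GGs_CB (f : ℝ → ℝ) (s M : ℕ) (β : ℝ) :
    GGs (CB s (Finset.Icc 1 M)) (fsR f) (fun _ => 1) β = SF f M β ^ s := by
  rw [← FFs_CB]
  unfold GGs FFs
  simp

/-- the number of representations as a weighted number with a trivial first factor -/
lemma RR_triv (f : ℝ → ℝ) (s M : ℕ) (n : ℤ) :
    RR ({()} : Finset Unit) (fun _ => 0) (CB s (Finset.Icc 1 M)) (fsR f) (fun _ => 1) n =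
      (((CB s (Finset.Icc 1 M)).filter fun x => (fsR f x : ℤ) = n).card : ℝ) := by
  classical
  unfold RR
  rw [Finset.sum_singleton, Finset.sum_singleton, Finset.card_filter]
  push_cast
  refine Finset.sum_congr rfl fun b _ => ?_
  simp only [zero_add]

/-- splitting of the `s` summands -/
lemma RR_split (f : ℝ → ℝ) (k s M : ℕ) (hs : 2 * k ≤ s) (n : ℤ) :
    RR (CB k (Finset.Icc 1 M)) (fsR f) (CB (s - 2 * k) (Finset.Icc 1 M)) (fsR f) (fun _ => 1) n =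
      (((CB s (Finset.Icc 1 M)).filter fun x => (fsR f x : ℤ) = n).card : ℝ) := by
  rw [← RR_triv]
  have h : ((RR (CB k (Finset.Icc 1 M)) (fsR f) (CB (s - 2 * k) (Finset.Icc 1 M)) (fsR f) (fun _ => 1) n : ℝ) : ℂ) =
      ((RR ({()} : Finset Unit) (fun _ => 0) (CB s (Finset.Icc 1 M)) (fsR f) (fun _ => 1) n : ℝ) : ℂ) := by
    rw [RR_eq, RR_eq]
    refine intervalIntegral.integral_congr fun α _ => ?_
    simp only [FFs_CB, GGs_CB]
    have h1 : FFs ({()} : Finset Unit) (fun _ => 0) α = 1 := by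
      unfold FFs
      simp [ee_zero]
    rw [h1, ← pow_mul, ← pow_add]
    have h2 : k * 2 + (s - 2 * k) = s := by omega
    rw [h2, one_pow, one_mul]
  exact_mod_cast h

/-- the number of representations as the cardinality of a finite set -/
lemma rep_eq (f : ℝ → ℝ) (k s M n : ℕ) (hf : ∀ n : ℕ, n ^ k ≤ fr f n) (hM : ∀ x : ℕ, x ^ k ≤ n → x ≤ M) :
    (rep f s n : ℝ) = (((CB s (Finset.Icc 1 M)).filter fun x => (fsR f x : ℤ) = (n : ℤ)).card : ℝ) := by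
  classical
  unfold rep
  rw [← Set.ncard_coe_finset]
  congr 2
  ext x
  simp only [Set.mem_ofPred_eq, Finset.coe_filter, CB, Fintype.mem_piFinset, Finset.mem_Icc]
  constructor
  · rintro ⟨h1, h2⟩
    refine ⟨fun i => ⟨h1 i, ?_⟩, ?_⟩
    · apply hM
      calc x i ^ k ≤ fr f (x i) := hf _
        _ ≤ ∑ i, fr f (x i) := Finset.single_le_sum (f := fun i => fr f (x i)) (fun _ _ => Nat.zero_le _) (Finset.mem_univ i)
        _ = n := h2
    · exact_mod_cast h2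
  · rintro ⟨h1, h2⟩
    refine ⟨fun i => (h1 i).1, ?_⟩
    have h3 : (fsR f x : ℤ) = (n : ℤ) := h2
    have h4 : fsR f x = n := by exact_mod_cast h3
    exact h4

lemma SF_le (f : ℝ → ℝ) (M : ℕ) (β : ℝ) : ‖SF f M β‖ ≤ M := by
  unfold SF
  refine (norm_sum_le _ _).trans ?_
  simp_rw [ee_norm']
  simp

lemma JJ_mono {ι : Type*} {A B : Finset ι} (h : A ⊆ B) (g : ι → ℕ) : JJ A g ≤ JJ B g := by
  classical
  unfold JJ
  exact Finset.card_le_card (Finset.filter_subset_filter _ (Finset.product_subset_product h h))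

lemma two_rpow_bound {x y e : ℝ} (hx : 0 < x) (h1 : x ≤ y) (h2 : y ≤ 2 * x) : y ^ e ≤ 2 ^ |e| * x ^ e := by
  rcases le_total 0 e with he | he
  · rw [abs_of_nonneg he, ← Real.mul_rpow (by norm_num) hx.le]
    exact Real.rpow_le_rpow (hx.le.trans h1) h2 he
  · have h3 : y ^ e ≤ x ^ e := Real.rpow_le_rpow_of_nonpos hx h1 he
    have h4 : (1 : ℝ) ≤ 2 ^ |e| := Real.one_le_rpow (by norm_num) (abs_nonneg e)
    nlinarith [Real.rpow_pos_of_pos hx e]

theorem t_WIN : S_WIN := by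
  intro k s hk hs f hf hJ ρ τ C hρ hρ4 hτ hC hSF
  refine ⟨C * 2 ^ |(s : ℝ) - k - τ / 2|, ?_⟩
  have hk0 : (0 : ℝ) < k := by positivity
  have hk2 : (2 : ℝ) ≤ k := by exact_mod_cast hk
  have hi : (0 : ℝ) < 1 / (k : ℝ) := by positivity
  -- the length of the variables
  have hMt : Tendsto (fun N : ℕ => ⌈(N : ℝ) ^ (1 / (k : ℝ))⌉₊) atTop atTop :=
    tendsto_nat_ceil_atTop.comp ((tendsto_rpow_atTop hi).comp tendsto_natCast_atTop_atTop)
  have e1 := hMt.eventually (hJ (τ / 2) (by positivity))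
  -- the size of the window
  have e2 : ∀ᶠ N : ℕ in atTop, (1 + ((N : ℝ) ^ (1 / (k : ℝ)))⁻¹) ^ ((k : ℝ) - ρ) ≤ 2 := by
    have h1 : Tendsto (fun N : ℕ => (1 + ((N : ℝ) ^ (1 / (k : ℝ)))⁻¹) ^ ((k : ℝ) - ρ)) atTop (𝓝 ((1 + 0) ^ ((k : ℝ) - ρ))) := by
      apply Tendsto.rpow_const
      · exact tendsto_const_nhds.add
          (tendsto_inv_atTop_zero.comp ((tendsto_rpow_atTop hi).comp tendsto_natCast_atTop_atTop))
      · left; norm_num
    have h2 : ((1 : ℝ) + 0) ^ ((k : ℝ) - ρ) = 1 := by rw [add_zero, Real.one_rpow]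
    rw [h2] at h1
    exact (h1.eventually (gt_mem_nhds (show (1 : ℝ) < 2 by norm_num))).mono fun N h => h.le
  have e3 : ∀ᶠ N : ℕ in atTop, (4 : ℝ) ≤ (N : ℝ) ^ (ρ / k) :=
    ((tendsto_rpow_atTop (show 0 < ρ / k by positivity)).comp tendsto_natCast_atTop_atTop).eventually
      (eventually_ge_atTop 4)
  filter_upwards [e1, e2, e3, eventually_ge_atTop 1] with N h1 h2 h3 hN
  have hN1 : (1 : ℝ) ≤ N := by exact_mod_cast hN
  have hN0 : (0 : ℝ) < N := by linarith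
  set M : ℕ := ⌈(N : ℝ) ^ (1 / (k : ℝ))⌉₊ with hMdef
  have hr1 : (1 : ℝ) ≤ (N : ℝ) ^ (1 / (k : ℝ)) := Real.one_le_rpow hN1 hi.le
  have hM1 : (N : ℝ) ^ (1 / (k : ℝ)) ≤ M := Nat.le_ceil _
  have hM2 : (M : ℝ) ≤ (N : ℝ) ^ (1 / (k : ℝ)) + 1 := (Nat.ceil_lt_add_one (by linarith)).le
  have hMone : (1 : ℝ) ≤ M := hr1.trans hM1
  have hMpos : (0 : ℝ) < M := by linarith
  have hM1' : 1 ≤ M := by exact_mod_cast hMone
  have hpw : ∀ a : ℝ, ((N : ℝ) ^ (1 / (k : ℝ))) ^ a = (N : ℝ) ^ (a / k) := by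
    intro a
    rw [← Real.rpow_mul hN0.le]
    congr 1
    ring
  have hkρ : (0 : ℝ) ≤ (k : ℝ) - ρ := by linarith
  have hWe : ((k : ℝ) - ρ) / k = 1 - ρ / k := by
    field_simp
  set W : ℕ := ⌈(M : ℝ) ^ ((k : ℝ) - ρ)⌉₊ with hWdef
  have hW1 : (N : ℝ) ^ (1 - ρ / k) ≤ W := by
    rw [← hWe, ← hpw]
    exact (Real.rpow_le_rpow (by linarith) hM1 hkρ).trans (Nat.le_ceil _)
  have hone : (1 : ℝ) ≤ (N : ℝ) ^ (1 - ρ / k) := by
    apply Real.one_le_rpow hN1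
    rw [← hWe]
    positivity
  have hW2 : (W : ℝ) ≤ 4 * (N : ℝ) ^ (1 - ρ / k) := by
    have g1 : (W : ℝ) ≤ (M : ℝ) ^ ((k : ℝ) - ρ) + 1 := (Nat.ceil_lt_add_one (by positivity)).le
    have g2 : (M : ℝ) ^ ((k : ℝ) - ρ) ≤ ((N : ℝ) ^ (1 / (k : ℝ)) * (1 + ((N : ℝ) ^ (1 / (k : ℝ)))⁻¹)) ^ ((k : ℝ) - ρ) := by
      apply Real.rpow_le_rpow hMpos.le _ hkρ
      rw [mul_add, mul_one, mul_inv_cancel₀ (by positivity)]
      exact hM2
    rw [Real.mul_rpow (by positivity) (by positivity), hpw, hWe] at g2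
    nlinarith
  have hWN : W ≤ N := by
    have : (W : ℝ) ≤ N := by
      have g1 : (N : ℝ) ^ (1 - ρ / k) * (N : ℝ) ^ (ρ / k) = N := by
        rw [← Real.rpow_add hN0]
        rw [sub_add_cancel, Real.rpow_one]
      calc (W : ℝ) ≤ 4 * (N : ℝ) ^ (1 - ρ / k) := hW2
        _ ≤ (N : ℝ) ^ (ρ / k) * (N : ℝ) ^ (1 - ρ / k) := by gcongr
        _ = N := by rw [mul_comm, g1]
    exact_mod_cast this
  refine ⟨W, hW1, hW2, ?_⟩
  -- small variables
  have hMx : ∀ n : ℕ, n ≤ N → ∀ x : ℕ, x ^ k ≤ n → x ≤ M := by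
    intro n hn x hx
    have g1 : (x : ℝ) ^ k ≤ N := by exact_mod_cast hx.trans hn
    have g2 : (x : ℝ) ≤ M := by
      calc (x : ℝ) = ((x : ℝ) ^ k) ^ (1 / (k : ℝ)) := by
            rw [← Real.rpow_natCast, ← Real.rpow_mul (by positivity), mul_one_div_cancel hk0.ne', Real.rpow_one]
        _ ≤ (N : ℝ) ^ (1 / (k : ℝ)) := Real.rpow_le_rpow (by positivity) g1 hi.le
        _ ≤ M := hM1
    exact_mod_cast g2
  have hrep : ∀ n : ℕ, n ≤ N → (rep f s n : ℝ) =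
      RR (CB k (Finset.Icc 1 M)) (fsR f) (CB (s - 2 * k) (Finset.Icc 1 M)) (fsR f) (fun _ => 1) (n : ℤ) := by
    intro n hn
    rw [RR_split f k s M (by omega), rep_eq f k s M n hf (hMx n hn)]
  have hsum : ∑ h ∈ range W, (rep f s (N - h) : ℝ) =
      ∑ h ∈ range W, RR (CB k (Finset.Icc 1 M)) (fsR f) (CB (s - 2 * k) (Finset.Icc 1 M)) (fsR f) (fun _ => 1) ((N : ℤ) - h) := by
    refine Finset.sum_congr rfl fun h hh => ?_
    have hh' := Finset.mem_range.1 hh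
    rw [hrep (N - h) (by omega)]
    congr 1
    omega
  rw [hrep N le_rfl, hsum]
  -- the bound
  have hB : ∀ α : ℝ, |α| ≤ 1 / 2 → ‖GGs (CB (s - 2 * k) (Finset.Icc 1 M)) (fsR f) (fun _ => 1) α‖ * ‖1 - KK W α‖ ≤
      (M : ℝ) ^ ((s : ℝ) - 2 * k - 1) * (C * (M : ℝ) ^ (1 - τ)) := by
    intro α hα
    rw [GGs_CB, norm_pow]
    have g1 : s - 2 * k = (s - 2 * k - 1) + 1 := by omega
    rw [g1, pow_succ, mul_assoc]
    have g2 : ‖SF f M α‖ ^ (s - 2 * k - 1) ≤ (M : ℝ) ^ ((s : ℝ) - 2 * k - 1) := by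
      have g3 : ((s : ℝ) - 2 * k - 1) = ((s - 2 * k - 1 : ℕ) : ℝ) := by
        have : s = (s - 2 * k - 1) + 2 * k + 1 := by omega
        have h5 : (s : ℝ) = ((s - 2 * k - 1 : ℕ) : ℝ) + 2 * k + 1 := by exact_mod_cast this
        linarith
      rw [g3, Real.rpow_natCast]
      exact pow_le_pow_left₀ (norm_nonneg _) (SF_le f M α) _
    exact mul_le_mul g2 (hSF M hM1' α hα) (by positivity) (by positivity)
  have hmain := RR_avg (CB k (Finset.Icc 1 M)) (fsR f) (CB (s - 2 * k) (Finset.Icc 1 M)) (fsR f) (fun _ => (1 : ℝ))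
    (W := W) (N : ℤ) hB
  refine hmain.trans ?_
  have hJJ : (JJ (CB k (Finset.Icc 1 M)) (fsR f) : ℝ) ≤ (M : ℝ) ^ ((k : ℝ) + τ / 2) := by
    refine le_trans ?_ h1
    exact_mod_cast JJ_mono (by
      intro x hx
      simp only [CB, Fintype.mem_piFinset, Finset.mem_Icc, Finset.mem_range] at hx ⊢
      intro i
      have := (hx i).2
      omega) _
  calc (M : ℝ) ^ ((s : ℝ) - 2 * k - 1) * (C * (M : ℝ) ^ (1 - τ)) * (JJ (CB k (Finset.Icc 1 M)) (fsR f) : ℝ)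
      ≤ (M : ℝ) ^ ((s : ℝ) - 2 * k - 1) * (C * (M : ℝ) ^ (1 - τ)) * (M : ℝ) ^ ((k : ℝ) + τ / 2) := by
        apply mul_le_mul_of_nonneg_left hJJ (by positivity)
    _ = C * ((M : ℝ) ^ ((s : ℝ) - 2 * k - 1) * (M : ℝ) ^ (1 - τ) * (M : ℝ) ^ ((k : ℝ) + τ / 2)) := by ring
    _ = C * (M : ℝ) ^ ((s : ℝ) - k - τ / 2) := by
        rw [← Real.rpow_add hMpos, ← Real.rpow_add hMpos]
        congr 2
        ring
    _ ≤ C * (2 ^ |(s : ℝ) - k - τ / 2| * ((N : ℝ) ^ (1 / (k : ℝ))) ^ ((s : ℝ) - k - τ / 2)) := by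
        apply mul_le_mul_of_nonneg_left _ (by linarith)
        apply two_rpow_bound (by linarith) hM1 (by linarith)
    _ = C * 2 ^ |(s : ℝ) - k - τ / 2| * (N : ℝ) ^ ((s : ℝ) / k - 1 - τ / (2 * k)) := by
        rw [hpw]
        have : ((s : ℝ) - k - τ / 2) / k = (s : ℝ) / k - 1 - τ / (2 * k) := by
          field_simp
        rw [this, mul_assoc]

end Pool.Agent.J4H87.AF
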